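import Pool.Agent.H32.CH.Targets

/-!
# Module FB of the board ch_modules
-/

set_option autoImplicit false

open Finset
open scoped Classical

namespace Pool.Agent.H12.CH.FB

open Pool.Agent.H32.CH

theorem pf_FB (h0 : T_CR) (h1 : T_M1) (h3 : T_DC) : T_FB := by
  intro V _ G A Z' z b hD hTF hE hz hb hzb hP hbZ
  obtain ⟨hC, hdeg, hmod⟩ := hP
  have hbA : b ∉ A := hb.1
  have hzA : z ∈ A := hz.1
  have hzbne : z ≠ b := fun e => hbA (e ▸ hzA)
  have hbe : b ∉ A.erase z := fun h => hbA (mem_of_mem_erase h)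
  have hzZ : z ∉ Z' := by
    intro h
    have h2 := hC.1 h
    rw [mem_insert] at h2
    rcases h2 with h2 | h2
    · exact hzbne h2
    · exact (notMem_erase z A) h2
  have hsub : ∀ x ∈ Z'.erase b, x ∈ A.erase z := by
    intro x hx
    rw [mem_erase] at hx
    have h2 := hC.1 hx.2
    rw [mem_insert] at h2
    exact h2.resolve_left hx.1
  obtain ⟨u, w, huw, hu, hw, hbu, hbw, hall⟩ := dg_two (hdeg b hbZ)
  have huZ : u ∈ Z' := hC.2.2 b hbZ u hu hbu
  have hwZ : w ∈ Z' := hC.2.2 b hbZ w hw hbw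
  have huP : u ∈ Z'.erase b := mem_erase.2 ⟨hbu.ne', huZ⟩
  have hwP : w ∈ Z'.erase b := mem_erase.2 ⟨hbw.ne', hwZ⟩
  have hnuw : ¬ G.Adj u w := fun h => hTF b u w hbu h hbw.symm
  -- neighbours of z
  have hnz : ∀ x ∈ Z'.erase b, ¬ G.Adj x z := by
    intro x hx hxz
    by_cases hxb : G.Adj x b
    · exact hTF z b x hzb hxb.symm hxz
    · have h4 := hdeg x (mem_of_mem_erase hx)
      rw [dg_insert_not hxb] at h4
      have h5 := dg_erase_adj hzA hxz
      have h6 := (h1 V G A hD hE.1).1 x (mem_of_mem_erase (hsub x hx))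
      omega
  have hdg : ∀ x ∈ Z'.erase b, dg G A x = dg G (A.erase z) x := fun x hx =>
    (dg_erase_not (hnz x hx)).symm
  have hdg1 : ∀ x ∈ Z'.erase b, G.Adj x b → dg G A x = 1 := by
    intro x hx hxb
    have h4 := hdeg x (mem_of_mem_erase hx)
    rw [dg_insert_adj hbe hxb] at h4
    rw [hdg x hx]
    omega
  have hdg2 : ∀ x ∈ Z'.erase b, ¬ G.Adj x b → dg G A x = 2 := by
    intro x hx hxb
    have h4 := hdeg x (mem_of_mem_erase hx)
    rw [dg_insert_not hxb] at h4
    rw [hdg x hx]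
    exact h4
  have hconn : Conn G (Z'.erase b) := by
    refine h0 V G Z' b hC.2.1 (fun x hx => ?_) hbZ
    rw [← h3 V G _ Z' x hC hx]
    exact hdeg x hx
  refine ⟨⟨fun x hx => mem_of_mem_erase (hsub x hx), hconn, ?_⟩, hzZ, ?_, u, w, huP, hwP, huw,
    hnuw, hdg1 u huP hbu.symm, hdg1 w hwP hbw.symm, ?_, hbu, hbw, ?_⟩
  · intro x hx y hy hxy
    have hyz : y ≠ z := by
      rintro rfl
      exact hnz x hx hxy
    have hyb : y ≠ b := by
      rintro rfl
      exact hbA hy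
    refine mem_erase.2 ⟨hyb, hC.2.2 x (mem_of_mem_erase hx) y ?_ hxy⟩
    exact mem_insert_of_mem (mem_erase.2 ⟨hyz, hy⟩)
  · have h4 : 0 < (Z'.erase b).card := card_pos.2 ⟨u, huP⟩
    have h5 := card_erase_add_one hbZ
    omega
  · intro x hx hxu hxw
    apply hdg2 x hx
    intro hxb
    rcases hall x (hC.1 (mem_of_mem_erase hx)) hxb.symm with h4 | h4
    · exact hxu h4
    · exact hxw h4
  · intro x hx hbx
    by_cases hxz : x = z
    · exact Or.inl hxz
    · exact Or.inr (hall x (mem_insert_of_mem (mem_erase.2 ⟨hxz, hx⟩)) hbx)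

end Pool.Agent.H12.CH.FB
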