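import Pool.Agent.H32.CH.Targets

/-!
# Module W2 of the board ch_modules
-/

set_option autoImplicit false

open Finset

namespace Pool.Agent.H12.CH.W2

open Pool.Agent.H32.CH

theorem pf_W2 (h : T_COR) : T_W2 := by
  intro m hm
  refine ⟨2 * m, fun i => {(if (i : ℕ) + 1 = 2 * m then 6 * m - 2 else 3 * (i : ℕ)),
    (if (i : ℕ) + 1 = 2 * m then 6 * m - 2 else 3 * (i : ℕ)) + 1,
    (if (i : ℕ) + 1 = 2 * m then 6 * m - 2 else 3 * (i : ℕ)) + 2}, ⟨?_, ?_, ?_⟩, ?_⟩
  · intro i
    exact Finset.card_eq_three.2 ⟨_, _, _, by omega, by omega, by omega, rfl⟩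
  · intro i x hx
    have hi := i.2
    simp only [mem_insert, mem_singleton] at hx
    rw [mem_range]
    split_ifs at hx <;> omega
  · intro i j hij
    have hi := i.2
    have hj := j.2
    have hij' : (i : ℕ) ≠ j := fun e => hij (Fin.ext e)
    rw [Finset.disjoint_left]
    intro x hx hx'
    simp only [mem_insert, mem_singleton] at hx hx'
    split_ifs at hx hx' <;> omega
  · intro r hr hcard _
    have hex : ∀ i : ℕ, ∃ p : ℕ, i < 2 * m → p ∈ r ∧ (i + 1 < 2 * m → 3 * i ≤ p ∧ p ≤ 3 * i + 2) ∧
        (i + 1 = 2 * m → 6 * m - 2 ≤ p ∧ p ≤ 6 * m) := by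
      intro i
      by_cases hi : i < 2 * m
      · have h1 := hcard ⟨i, hi⟩
        obtain ⟨p, hp⟩ := Finset.card_pos.1 (by rw [h1]; norm_num)
        rw [mem_inter] at hp
        obtain ⟨hp1, hp2⟩ := hp
        simp only [mem_insert, mem_singleton] at hp2
        refine ⟨p, fun _ => ⟨hp1, ?_, ?_⟩⟩
        · intro h2
          rw [if_neg (by omega)] at hp2
          omega
        · intro h2
          rw [if_pos h2] at hp2
          omega
      · exact ⟨0, fun h2 => absurd h2 hi⟩
    choose P hP using hex
    have hP0 : ∀ i, i + 1 < 2 * m → 3 * i ≤ P i ∧ P i ≤ 3 * i + 2 := fun i hi =>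
      (hP i (by omega)).2.1 hi
    have hP1 : ∀ i, i + 1 = 2 * m → 6 * m - 2 ≤ P i ∧ P i ≤ 6 * m := fun i hi =>
      (hP i (by omega)).2.2 hi
    have h00 := hP0 0 (by omega)
    have hlast := hP1 (2 * m - 1) (by omega)
    obtain ⟨s, hs, hCG⟩ := h (6 * m + 2) (2 * m) P (fun i => i % 2 = 1 ∧ i + 3 ≤ 2 * m)
      (by omega)
      (by
        intro i hi
        rcases Nat.lt_or_ge (i + 1) (2 * m) with h1 | h1
        · have := hP0 i h1
          omega
        · have := hP1 i (by omega)
          omega)
      (by
        intro i hi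
        have h1 := hP0 i hi
        rcases Nat.lt_or_ge (i + 1 + 1) (2 * m) with h2 | h2
        · have := hP0 (i + 1) h2
          omega
        · have := hP1 (i + 1) (by omega)
          omega)
      (by omega)
      (by
        intro i hi h1 h2
        omega)
      (by
        rintro ⟨_, h2⟩
        omega)
      (by
        intro i hi hii
        have h1 := hP0 i hi
        rcases Nat.lt_or_ge (i + 1 + 1) (2 * m) with h2 | h2
        · rcases Nat.mod_two_eq_zero_or_one i with h3 | h3
          · right
            omega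
          · left
            omega
        · have := hP1 (i + 1) (by omega)
          omega)
      (by
        intro h1
        omega)
      (by
        intro i hi h1 h2
        have h3 := hP0 i (by omega)
        have h4 := hP0 (i + 1) (by omega)
        have h5 := hP0 (i + 2) (by omega)
        omega)
      (by
        intro h1
        omega)
      (by
        intro h1
        omega)
    refine ⟨s, fun x hx => ?_, hCG⟩
    obtain ⟨i, hi, rfl⟩ := Finset.mem_image.1 (hs hx)
    exact (hP i (mem_range.1 hi)).1

end Pool.Agent.H12.CH.W2
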